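import Pool.Agent.V11146.MK.Rough

/-!
# Residue classes of rough numbers `k` steps apart

`S_z` is the set of the `n` without a prime factor `≤ z` (so it contains all the primes `p > z`). For every prime
`q`, every `k ≥ 2` and `ε > 0` there are `K` and `z₀` such that for all `z ≥ z₀`, in ALL intervals `(Z, Z + Y]`
with `Y ≥ z ^ K`, the share, among the elements of `S_z` in the interval, of the `n ≡ a (mod q)` whose `k`-th
successor in `S_z` is `≡ b (mod q)`, is `1 / φ(q) ^ 2` up to `ε`, for all nonzero residues `a`, `b`; and for all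
nonzero residues `a 0, …, a k` the share of the `n` such that `n` and its `k` successors are
`≡ a 0, …, a k (mod q)` is `1 / φ(q) ^ (k + 1)` up to `ε`.
-/

set_option autoImplicit false

open Finset

namespace Pool.Agent.Results.MP_252578_nt.RoughSuccessors

/-- `n` has no prime factor `≤ z`. -/
def Rough (z n : ℕ) : Prop := ∀ p : ℕ, p.Prime → p ≤ z → ¬ p ∣ n

/-- `n 0 < n 1 < … < n k` are consecutive elements of `S` (so `n i` is the `i`-th successor of `n 0` in `S`). -/
def Consecutive (S : ℕ → Prop) (k : ℕ) (n : ℕ → ℕ) : Prop :=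
  (∀ i ≤ k, S (n i)) ∧ ∀ i < k, n i < n (i + 1) ∧ ∀ m, n i < m → m < n (i + 1) → ¬ S m

open Classical in
/-- The number of the elements of `S_z` in `(Z, Z + Y]`. -/
noncomputable def total (z Z Y : ℕ) : ℕ := ((Ioc Z (Z + Y)).filter (Rough z)).card

open Classical in
/-- The number of the elements `g ≡ a (mod q)` of `S_z` in `(Z, Z + Y]` whose `k`-th successor in `S_z` is
`≡ b (mod q)`. -/
noncomputable def apart (z q k a b Z Y : ℕ) : ℕ :=
  ((Ioc Z (Z + Y)).filter (fun g => ∃ n : ℕ → ℕ, n 0 = g ∧ Consecutive (Rough z) k n ∧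
    n 0 ≡ a [MOD q] ∧ n k ≡ b [MOD q])).card

open Classical in
/-- The number of the elements `g` of `S_z` in `(Z, Z + Y]` such that `g` and the `k` next elements of `S_z` are
congruent to `a 0, a 1, …, a k` modulo `q`. -/
noncomputable def count (z q k : ℕ) (a : ℕ → ℕ) (Z Y : ℕ) : ℕ :=
  ((Ioc Z (Z + Y)).filter (fun g => ∃ n : ℕ → ℕ, n 0 = g ∧ Consecutive (Rough z) k n ∧
    ∀ i ≤ k, n i ≡ a i [MOD q])).card

lemma uniq (S : ℕ → Prop) (k : ℕ) (n n' : ℕ → ℕ) (h : Consecutive S k n) (h' : Consecutive S k n')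
    (h0 : n 0 = n' 0) : ∀ i ≤ k, n i = n' i := by
  intro i
  induction i with
  | zero => intro _; exact h0
  | succ i ih =>
    intro hi
    have e := ih (by omega)
    obtain ⟨h1, h2⟩ := h.2 i (by omega)
    obtain ⟨h3, h4⟩ := h'.2 i (by omega)
    rcases lt_trichotomy (n (i + 1)) (n' (i + 1)) with h5 | h5 | h5
    · exact absurd (h.1 (i + 1) hi) (h4 _ (by omega) h5)
    · exact h5
    · exact absurd (h'.1 (i + 1) hi) (h2 _ (by omega) h5)

/-- the pattern with the given middle part -/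
def pt (m a b : ℕ) (w : Fin m → ℕ) (i : ℕ) : ℕ :=
  if i = 0 then a else if h : i - 1 < m then w ⟨i - 1, h⟩ else b

lemma rough_pos {q z : ℕ} (hq : q.Prime) (hz : q ≤ z) {n : ℕ} (h : Rough z n) : n % q ∈ Ico 1 q := by
  rw [mem_Ico]
  refine ⟨?_, Nat.mod_lt _ hq.pos⟩
  have := h q hq hz
  rw [Nat.dvd_iff_mod_eq_zero] at this
  omega

open Classical in
lemma split (z q m a b Z Y : ℕ) (hq : q.Prime) (hz : q ≤ z) :
    apart z q (m + 1) a b Z Y = ∑ w ∈ Fintype.piFinset (fun _ : Fin m => Ico 1 q),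
      count z q (m + 1) (pt m a b w) Z Y := by
  unfold apart count
  rw [← Finset.card_biUnion]
  · congr 1
    ext g
    simp only [mem_filter, mem_biUnion, Fintype.mem_piFinset]
    constructor
    · rintro ⟨h1, n, h2, h3, h4, h5⟩
      refine ⟨fun j => n (j + 1) % q, ?_, h1, n, h2, h3, ?_⟩
      · intro j
        exact rough_pos hq hz (h3.1 _ (by omega))
      · intro i hi
        unfold pt
        split_ifs with h6 h7
        · rw [h6]; exact h4
        · have e : i - 1 + 1 = i := by omega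
          simp only [e]
          exact (Nat.mod_modEq _ _).symm
        · have e : i = m + 1 := by omega
          rw [e]
          exact h5
    · rintro ⟨w, _, h1, n, h2, h3, h4⟩
      refine ⟨h1, n, h2, h3, ?_, ?_⟩
      · have := h4 0 (Nat.zero_le _)
        simpa [pt] using this
      · have := h4 (m + 1) le_rfl
        simpa [pt] using this
  · intro w hw w' hw' hne
    rw [Function.onFun, Finset.disjoint_left]
    intro g hg hg'
    rw [mem_filter] at hg hg'
    obtain ⟨_, n, h2, h3, h4⟩ := hg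
    obtain ⟨_, n', h2', h3', h4'⟩ := hg'
    apply hne
    funext j
    have hj := j.2
    have e := uniq _ _ n n' h3 h3' (by rw [h2, h2']) (j + 1) (by omega)
    have e1 := h4 (j + 1) (by omega)
    have e2 := h4' (j + 1) (by omega)
    rw [e] at e1
    have e3 := e1.symm.trans e2
    have p1 : pt m a b w (j + 1) = w j := by
      unfold pt
      simp
    have p2 : pt m a b w' (j + 1) = w' j := by
      unfold pt
      simp
    rw [p1, p2] at e3
    have hw1 := (Fintype.mem_piFinset.1 (Finset.mem_coe.1 hw)) j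
    have hw2 := (Fintype.mem_piFinset.1 (Finset.mem_coe.1 hw')) j
    rw [mem_Ico] at hw1 hw2
    exact Nat.ModEq.eq_of_lt_of_lt e3 hw1.2 hw2.2

open Classical in
lemma main (q k : ℕ) (hq : q.Prime) (ε : ℝ) (hε : 0 < ε) : ∃ K z₀ : ℕ, ∀ z : ℕ, z₀ ≤ z →
    ∀ Z Y : ℕ, z ^ K ≤ Y → 0 < total z Z Y ∧ ∀ a : ℕ → ℕ, (∀ i ≤ k, a i ∈ Ico 1 q) →
      |(count z q k a Z Y : ℝ) - total z Z Y / ((q : ℝ) - 1) ^ (k + 1)| ≤ ε * total z Z Y := by
  obtain ⟨K, z₀, h⟩ := Pool.Agent.V11146.MK.rough_pat q k hq ε hε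
  refine ⟨K, z₀, ?_⟩
  intro z hz Z Y hY
  obtain ⟨h1, h2⟩ := h z hz Z Y hY
  refine ⟨h1, ?_⟩
  intro a ha
  have h3 := h2 a ha
  have h8 : count z q k a Z Y = ((Ioc Z (Z + Y)).filter (fun g => Pool.Agent.V11146.MK.Runs
      (Pool.Agent.V11146.MK.Rough z) (fun n => n % q) k a g)).card := by
    unfold count
    congr 1
    apply Finset.filter_congr
    intro g _
    unfold Pool.Agent.V11146.MK.Runs
    apply exists_congr
    intro n
    apply and_congr Iff.rfl
    apply and_congr Iff.rfl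
    apply forall_congr'
    intro i
    apply forall_congr'
    intro hi
    unfold Nat.ModEq
    have := ha i hi
    rw [mem_Ico] at this
    rw [Nat.mod_eq_of_lt this.2]
  rw [← h8] at h3
  exact h3

open Classical in
/-- **Residue classes of rough numbers `k` steps apart.** -/
theorem result :
    (∀ z p : ℕ, p.Prime → z < p → Rough z p) ∧
    ∀ q : ℕ, q.Prime → ∀ k : ℕ, 2 ≤ k → ∀ ε : ℝ, 0 < ε →
      ∃ K z₀ : ℕ, ∀ z : ℕ, z₀ ≤ z → ∀ Z Y : ℕ, z ^ K ≤ Y → 0 < total z Z Y ∧
        (∀ a b : ℕ, a ∈ Ico 1 q → b ∈ Ico 1 q →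
          |(apart z q k a b Z Y : ℝ) / total z Z Y - 1 / (Nat.totient q : ℝ) ^ 2| ≤ ε) ∧
        ∀ a : ℕ → ℕ, (∀ i ≤ k, a i ∈ Ico 1 q) →
          |(count z q k a Z Y : ℝ) / total z Z Y - 1 / (Nat.totient q : ℝ) ^ (k + 1)| ≤ ε := by
  refine ⟨?_, ?_⟩
  · intro z p hp hz r hr hrz h
    have := (Nat.prime_dvd_prime_iff_eq hr hp).1 h
    omega
  intro q hq k hk ε hε
  obtain ⟨m, rfl⟩ : ∃ m, k = m + 1 := ⟨k - 1, by omega⟩
  have hq2 : (2 : ℝ) ≤ q := by exact_mod_cast hq.two_le
  have hφ : ((Nat.totient q : ℕ) : ℝ) = (q : ℝ) - 1 := by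
    rw [Nat.totient_prime hq, Nat.cast_sub hq.one_lt.le, Nat.cast_one]
  rw [hφ]
  obtain ⟨A, hA⟩ : ∃ A : ℝ, A = (q : ℝ) - 1 := ⟨_, rfl⟩
  have hA1 : 1 ≤ A := by linarith
  have hAm : 1 ≤ A ^ m := one_le_pow₀ hA1
  obtain ⟨K, z₀, h⟩ := main q (m + 1) hq (ε / A ^ m) (by positivity)
  refine ⟨K, z₀ + q, ?_⟩
  intro z hz Z Y hY
  obtain ⟨h1, h2⟩ := h z (by omega) Z Y hY
  have h4 : (0 : ℝ) < total z Z Y := by exact_mod_cast h1
  rw [← hA] at h2 ⊢
  refine ⟨h1, ?_, ?_⟩
  · intro a b ha hb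
    have h5 : (apart z q (m + 1) a b Z Y : ℝ) / total z Z Y - 1 / A ^ 2 =
        (∑ w ∈ Fintype.piFinset (fun _ : Fin m => Ico 1 q),
          ((count z q (m + 1) (pt m a b w) Z Y : ℝ) - total z Z Y / A ^ (m + 1 + 1))) / total z Z Y := by
      rw [split z q m a b Z Y hq (by omega), Finset.sum_sub_distrib, Finset.sum_const, Fintype.card_piFinset]
      simp only [Finset.prod_const, Finset.card_univ, Fintype.card_fin, Nat.card_Ico, nsmul_eq_mul]
      push_cast
      rw [Nat.cast_sub hq.one_lt.le, Nat.cast_one, ← hA, sub_div]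
      congr 1
      field_simp
      ring
    rw [h5, abs_div, abs_of_pos h4, div_le_iff₀ h4]
    refine (Finset.abs_sum_le_sum_abs _ _).trans ?_
    have h6 : ∀ w ∈ Fintype.piFinset (fun _ : Fin m => Ico 1 q),
        |((count z q (m + 1) (pt m a b w) Z Y : ℝ) - total z Z Y / A ^ (m + 1 + 1))| ≤
          ε / A ^ m * total z Z Y := by
      intro w hw
      apply h2
      intro i hi
      unfold pt
      split_ifs with h6 h7
      · exact ha
      · exact (Fintype.mem_piFinset.1 hw) _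
      · exact hb
    refine (Finset.sum_le_card_nsmul _ _ _ h6).trans (le_of_eq ?_)
    rw [Fintype.card_piFinset]
    simp only [Finset.prod_const, Finset.card_univ, Fintype.card_fin, Nat.card_Ico, nsmul_eq_mul]
    push_cast
    rw [Nat.cast_sub hq.one_lt.le, Nat.cast_one, ← hA]
    field_simp
  · intro a ha
    have h3 := h2 a ha
    have h6 : (count z q (m + 1) a Z Y : ℝ) / total z Z Y - 1 / A ^ (m + 1 + 1) =
        ((count z q (m + 1) a Z Y : ℝ) - (total z Z Y : ℝ) / A ^ (m + 1 + 1)) / total z Z Y := by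
      field_simp
    rw [h6, abs_div, abs_of_pos h4, div_le_iff₀ h4]
    refine h3.trans (mul_le_mul_of_nonneg_right ?_ h4.le)
    exact div_le_self hε.le hAm

end Pool.Agent.Results.MP_252578_nt.RoughSuccessors
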